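import Mathlib
import Pool.Agent.Q277.Ram5k1
import Pool.Agent.Q277.Ram5k1Fac

/-!
# Integrality of the normalised `(5k+1)` sums with ratio `-192`
-/

namespace Pool.Agent.Results.MP_6a8d80_nt.Integrality

open Finset Q277.Ram5k1 Q277.FacTools

/-- the rational number `a_n` of the problem -/
def a (n : ℕ) : ℚ :=
  1 / ((n : ℚ) * (2 * n + 1) * ((2 * n).choose n : ℚ)) *
    ∑ k ∈ range n, (5 * (k : ℚ) + 1) * ((2 * k).choose k : ℚ) ^ 2 * ((3 * k).choose k : ℚ) *
      (-192) ^ (n - 1 - k)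

theorem choose_two (n : ℕ) : ((2 * n).choose n : ℚ)
    = ((2 * n).factorial : ℚ) / (n.factorial : ℚ) ^ 2 := by
  have h := Nat.choose_mul_factorial_mul_factorial (n := 2 * n) (k := n) (by omega)
  rw [show 2 * n - n = n by omega] at h
  have h' : ((2 * n).choose n : ℚ) * n.factorial * n.factorial = (2 * n).factorial := by
    exact_mod_cast h
  rw [eq_div_iff (pow_ne_zero 2 (fne n)), ← h']
  ring

theorem choose_three (n : ℕ) : ((3 * n).choose n : ℚ)
    = ((3 * n).factorial : ℚ) / ((n.factorial : ℚ) * ((2 * n).factorial : ℚ)) := by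
  have h := Nat.choose_mul_factorial_mul_factorial (n := 3 * n) (k := n) (by omega)
  rw [show 3 * n - n = 2 * n by omega] at h
  have h' : ((3 * n).choose n : ℚ) * n.factorial * (2 * n).factorial = (3 * n).factorial := by
    exact_mod_cast h
  rw [eq_div_iff (mul_ne_zero (fne n) (fne _)), ← h']
  ring

theorem F_zero (j : ℕ) : F j 0
    = (5 * (j : ℚ) + 1) * ((2 * j).choose j : ℚ) ^ 2 * ((3 * j).choose j : ℚ) := by
  unfold F
  rw [choose_two, choose_three]
  simp only [Nat.sub_zero, add_zero, pow_zero, Nat.cast_zero, mul_zero]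
  rw [f1 (2 * j)]
  have a1 := fne (3 * j)
  have a2 := fne (2 * j)
  have a3 := fne j
  generalize ((3 * j).factorial : ℚ) = x1 at *
  generalize ((2 * j).factorial : ℚ) = x2 at *
  generalize (j.factorial : ℚ) = x3 at *
  push_cast
  have b1 : 2 * (j : ℚ) + 1 ≠ 0 := by positivity
  field_simp
  ring

theorem a_eq (n : ℕ) (hn : 1 ≤ n) (ρ : ℕ → ℕ → ℕ)
    (hρ : ∀ r k, (r.factorial ^ 2 * (r + 2 * k + 1).factorial * (2 * r + 3 * k + 2).factorial *
      (2 * r + 2 * k + 3).factorial) * ρ r k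
      = (3 * r + 3 * k + 3).factorial * (2 * r).factorial * (2 * r + 4 * k + 2).factorial) :
    a n = ∑ k ∈ range n, (-3) ^ k * (ρ (n - k - 1) k : ℚ) / 6 := by
  have h := wz_sum F G (-192) (fun n k hk => pair n k hk) corner n
  have h2 : ∑ k ∈ range n, (5 * (k : ℚ) + 1) * ((2 * k).choose k : ℚ) ^ 2 *
      ((3 * k).choose k : ℚ) * (-192) ^ (n - 1 - k) = ∑ k ∈ range n, G n k := by
    rw [h]
    refine sum_congr rfl fun j _ => ?_
    rw [F_zero]; ring
  unfold a
  rw [h2, mul_sum]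
  refine sum_congr rfl fun k hk => ?_
  have hk' := mem_range.1 hk
  obtain ⟨r, hr⟩ : ∃ r, n = r + k + 1 := ⟨n - k - 1, by omega⟩
  have e := hρ r k
  have e' : ((r.factorial : ℚ) ^ 2 * ((r + 2 * k + 1).factorial : ℚ) *
      ((2 * r + 3 * k + 2).factorial : ℚ) * ((2 * r + 2 * k + 3).factorial : ℚ)) * (ρ r k : ℚ)
      = ((3 * r + 3 * k + 3).factorial : ℚ) * ((2 * r).factorial : ℚ) *
        ((2 * r + 4 * k + 2).factorial : ℚ) := by exact_mod_cast e
  rw [show n - k - 1 = r by omega]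
  unfold G
  rw [show n - k - 1 = r by omega, choose_two]
  rw [show 3 * r + 3 * k + 3 = 3 * n by omega, show 2 * r + 4 * k + 2 = 2 * (n + k) by omega,
    show r + 2 * k + 1 = n + k by omega, show 2 * r + 3 * k + 2 = 2 * n + k by omega,
    show 2 * r + 2 * k + 3 = 2 * n + 1 by omega, f1 (2 * n)] at e'
  have hnn : (n : ℚ) ≠ 0 := by exact_mod_cast (by omega : n ≠ 0)
  have b1 : 2 * (n : ℚ) + 1 ≠ 0 := by positivity
  have a1 := fne (3 * n)
  have a2 := fne (2 * r)
  have a3 := fne (2 * (n + k))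
  have a4 := fne (2 * n + k)
  have a5 := fne (n + k)
  have a6 := fne r
  have a7 := fne n
  have a8 := fne (2 * n)
  generalize ((3 * n).factorial : ℚ) = x1 at *
  generalize ((2 * r).factorial : ℚ) = x2 at *
  generalize ((2 * (n + k)).factorial : ℚ) = x3 at *
  generalize ((2 * n + k).factorial : ℚ) = x4 at *
  generalize ((n + k).factorial : ℚ) = x5 at *
  generalize (r.factorial : ℚ) = x6 at *
  generalize (n.factorial : ℚ) = x7 at *
  generalize ((2 * n).factorial : ℚ) = x8 at *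
  generalize (ρ r k : ℚ) = y at *
  push_cast at e'
  field_simp
  linear_combination (-1) * e'

theorem result (n : ℕ) (hn : 2 ≤ n) :
    ((∀ m : ℕ, 2 * n + 1 ≠ 3 ^ m) → ∃ z : ℤ, a n = z) ∧
    ((∃ m : ℕ, 2 * n + 1 = 3 ^ m) → ∃ z : ℤ, 3 * a n = z ∧ ¬ (3 : ℤ) ∣ z) := by
  choose ρ hρ using exists_R
  have ha := a_eq n (by omega) ρ hρ
  have hev : ∀ r k, 1 ≤ r + k → 2 ∣ ρ r k := fun r k h => even_R r k _ h (hρ r k)
  obtain ⟨m, rfl⟩ : ∃ m, n = m + 1 := ⟨n - 1, by omega⟩
  have h2 : ∃ z : ℤ, ∑ k ∈ range m, (-3) ^ (k + 1) * (ρ (m + 1 - (k + 1) - 1) (k + 1) : ℚ) / 6 = z := by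
    have hc : ∀ k, ∃ c : ℤ, k < m →
        (-3 : ℚ) ^ (k + 1) * (ρ (m + 1 - (k + 1) - 1) (k + 1) : ℚ) / 6 = c := by
      intro k
      by_cases hk : k < m
      · obtain ⟨c, hc⟩ := hev (m + 1 - (k + 1) - 1) (k + 1) (by omega)
        exact ⟨-(-3) ^ k * c, fun _ => by rw [hc, pow_succ]; push_cast; ring⟩
      · exact ⟨0, fun h => absurd h hk⟩
    choose c hc using hc
    refine ⟨∑ k ∈ range m, c k, ?_⟩
    rw [Int.cast_sum]
    exact sum_congr rfl fun k hk => hc k (mem_range.1 hk)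
  obtain ⟨z, hz⟩ := h2
  rw [sum_range_succ', hz] at ha
  simp only [pow_zero, one_mul, Nat.sub_zero, Nat.add_sub_cancel] at ha
  obtain ⟨c, hc⟩ := hev m 0 (by omega)
  have hρ0 : (m.factorial ^ 2 * (m + 1).factorial * (2 * m + 3).factorial) * ρ m 0
      = (3 * m + 3).factorial * (2 * m).factorial := by
    have h := hρ m 0
    simp only [mul_zero, add_zero] at h
    have hne : (2 * m + 2).factorial ≠ 0 := Nat.factorial_ne_zero _
    refine mul_left_cancel₀ hne ?_
    linear_combination h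
  have hb : a (m + 1) = z + (c : ℚ) / 3 := by
    rw [ha, hc]; push_cast; ring
  constructor
  · intro hm
    have h3 := three_dvd m (ρ m 0) (fun j hj => hm j (by omega)) hρ0
    rw [hc] at h3
    have h4 : 3 ∣ c := by omega
    obtain ⟨d, hd⟩ := h4
    exact ⟨z + d, by rw [hb, hd]; push_cast; ring⟩
  · rintro ⟨j, hj⟩
    have h3 := not_three_dvd m (ρ m 0) j (by omega) hρ0
    refine ⟨3 * z + c, by rw [hb]; push_cast; ring, fun h => ?_⟩
    apply h3
    rw [hc]
    have : (3 : ℤ) ∣ c := by omega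
    have : 3 ∣ c := by exact_mod_cast this
    exact Dvd.dvd.mul_left this 2

end Pool.Agent.Results.MP_6a8d80_nt.Integrality
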